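import Mathlib
import Pool.Agent.P.MP_d36d9e_co.Y8

namespace Pool.Agent.Results.MP_d36d9e_co.SmallOverlap

open Finset

/-- There is `C > 0` such that the second player has a Strong Draw on every `n`-uniform hypergraph
(of any size) in which two distinct hyperedges share at most `t` points, two distinct points lie in
at most `μ` common hyperedges and every degree is less than `2 ^ (n - C √(t n)) / μ ^ C`.  The case
`t = μ = 1` is the case of almost disjoint hypergraphs of maximum degree less than `2 ^ (n - C √n)`.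
A play is a sequence `m` of points, the first player making the moves of even index and the second
player those of odd index, until all points of the board are claimed; the strategy maps the list of
earlier moves to a move. -/
theorem result :
    ∃ C : ℝ, 0 < C ∧ ∀ n t μ : ℕ, 1 ≤ n → 1 ≤ t → 1 ≤ μ →
      ∀ (V : Type) [DecidableEq V] [Nonempty V] (F : Finset (Finset V)),
        (∀ A ∈ F, A.card = n) →
        (∀ A ∈ F, ∀ B ∈ F, A ≠ B → (A ∩ B).card ≤ t) →
        (∀ x y : V, x ≠ y → (F.filter fun A => x ∈ A ∧ y ∈ A).card ≤ μ) →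
        (∀ x : V, ((F.filter fun A => x ∈ A).card : ℝ) <
          (2 : ℝ) ^ ((n : ℝ) - C * Real.sqrt ((t : ℝ) * n)) / (μ : ℝ) ^ C) →
        ∃ σ : List V → V, ∀ m : ℕ → V,
          (∀ k < (F.biUnion id).card, Odd k → m k = σ (List.ofFn fun i : Fin k => m i.val)) →
          (∀ k < (F.biUnion id).card, Even k → m k ∈ F.biUnion id ∧ ∀ i < k, m i ≠ m k) →
          (∀ k < (F.biUnion id).card, Odd k → m k ∈ F.biUnion id ∧ ∀ i < k, m i ≠ m k) ∧
          ∀ A ∈ F, ∃ k < (F.biUnion id).card, Odd k ∧ m k ∈ A := by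
  refine ⟨32000, by norm_num, ?_⟩
  intro n t μ n1 t1 m1 V _ _ F hn ho hp hd
  rcases F.eq_empty_or_nonempty with rfl | ⟨A, hA⟩
  · exact ⟨fun _ => Classical.arbitrary V, fun m _ _ => by simp⟩
  obtain ⟨x0, hx0⟩ : A.Nonempty := card_pos.1 (by rw [hn A hA]; omega)
  have h1 : 1 ≤ (F.filter fun A => x0 ∈ A).card := card_pos.2 ⟨A, mem_filter.2 ⟨hA, hx0⟩⟩
  have hx0W : x0 ∈ F.biUnion id := mem_biUnion.2 ⟨A, hA, hx0⟩
  obtain ⟨x1, -, hmax⟩ := exists_max_image (F.biUnion id)
    (fun x => (F.filter fun A => x ∈ A).card) ⟨x0, hx0W⟩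
  refine Pool.Agent.P.MP_d36d9e_co.X.second_player_ad F (D := (F.filter fun A => x1 ∈ A).card)
    (r := Nat.sqrt (t * n)) (m := Nat.clog 2 μ) hn ho hp ?_ t1 n1 m1 (le_trans h1 (hmax x0 hx0W))
    (Nat.sqrt_le _) (Nat.lt_succ_sqrt _) (Nat.le_pow_clog (by norm_num) μ) ?_
  · intro x
    by_cases hx : x ∈ F.biUnion id
    · exact hmax x hx
    · have e : (F.filter fun A => x ∈ A) = ∅ :=
        filter_eq_empty_iff.2 fun B hB h => hx (mem_biUnion.2 ⟨B, hB, h⟩)
      rw [e]
      exact Nat.zero_le _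
  · have mr : (1 : ℝ) ≤ μ := by exact_mod_cast m1
    have h2 : 2 ^ Nat.clog 2 μ ≤ μ ^ 2 := by
      rcases Nat.eq_or_lt_of_le m1 with rfl | h
      · simp
      · have h3 := Nat.pow_pred_clog_lt_self (by norm_num : 1 < 2) h
        have h4 := Nat.clog_pos (by norm_num : 1 < 2) h
        obtain ⟨k, hk⟩ : ∃ k, Nat.clog 2 μ = k + 1 := ⟨Nat.clog 2 μ - 1, by omega⟩
        rw [hk] at h3 ⊢
        simp only [Nat.pred_succ] at h3
        rw [pow_succ]; nlinarith
    have h3 : 2 ^ (1476 * Nat.clog 2 μ) ≤ μ ^ 32000 := by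
      rw [mul_comm, pow_mul]
      refine le_trans (Nat.pow_le_pow_left h2 _) ?_
      rw [← pow_mul]
      exact Nat.pow_le_pow_right m1 (by norm_num)
    have h4 : ((Nat.sqrt (t * n) : ℕ) : ℝ) ≤ Real.sqrt ((t : ℝ) * n) := by
      have := Real.nat_sqrt_le_real_sqrt (a := t * n)
      rwa [Nat.cast_mul] at this
    have h5 := hd x1
    rw [lt_div_iff₀ (by positivity), show (32000 : ℝ) = ((32000 : ℕ) : ℝ) by norm_num,
      Real.rpow_natCast] at h5
    have h6 : (2 : ℝ) ^ ((n : ℝ) - ((32000 : ℕ) : ℝ) * Real.sqrt ((t : ℝ) * n)) ≤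
        2 ^ ((n : ℝ) - ((32000 * Nat.sqrt (t * n) : ℕ) : ℝ)) := by
      refine Real.rpow_le_rpow_of_exponent_le (by norm_num) ?_
      push_cast; linarith
    have h7 := lt_of_lt_of_le h5 h6
    rw [Real.rpow_sub (by norm_num), Real.rpow_natCast, Real.rpow_natCast,
      lt_div_iff₀ (by positivity)] at h7
    have h8 : (F.filter fun A => x1 ∈ A).card * μ ^ 32000 * 2 ^ (32000 * Nat.sqrt (t * n)) <
        2 ^ n := by exact_mod_cast h7
    refine le_trans ?_ h8.le
    rw [pow_add, mul_comm (2 ^ _), ← mul_assoc]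
    exact Nat.mul_le_mul_right _ (Nat.mul_le_mul_left _ h3)

end Pool.Agent.Results.MP_d36d9e_co.SmallOverlap
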