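import Mathlib
import Pool.Agent.P.MP_d36d9e_co.X5

namespace Pool.Agent.Results.MP_d36d9e_co.StrongDrawExp

open Finset

/-- There is `c > 0` such that in every `n`-uniform hypergraph of maximum degree less than
`2 ^ (n / 369 - c) / n` the second player has a Strong Draw.  A play is a sequence `m` of points,
the first player making the moves of even index and the second player those of odd index, until
all points of the board are claimed; the strategy maps the list of earlier moves to a move. -/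
theorem result :
    ∃ c : ℝ, 0 < c ∧ ∀ n : ℕ, 1 ≤ n →
      ∀ (V : Type) [DecidableEq V] [Nonempty V] (F : Finset (Finset V)),
        (∀ A ∈ F, A.card = n) →
        (∀ x : V, ((F.filter fun A => x ∈ A).card : ℝ) < (2 : ℝ) ^ ((n : ℝ) / 369 - c) / n) →
        ∃ σ : List V → V, ∀ m : ℕ → V,
          (∀ k < (F.biUnion id).card, Odd k → m k = σ (List.ofFn fun i : Fin k => m i.val)) →
          (∀ k < (F.biUnion id).card, Even k → m k ∈ F.biUnion id ∧ ∀ i < k, m i ≠ m k) →
          (∀ k < (F.biUnion id).card, Odd k → m k ∈ F.biUnion id ∧ ∀ i < k, m i ≠ m k) ∧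
          ∀ A ∈ F, ∃ k < (F.biUnion id).card, Odd k ∧ m k ∈ A := by
  refine ⟨100, by norm_num, ?_⟩
  intro n hn1 V _ _ F hn hd
  have hn1' : (1 : ℝ) ≤ n := by exact_mod_cast hn1
  rcases F.eq_empty_or_nonempty with rfl | ⟨A, hA⟩
  · exact ⟨fun _ => Classical.arbitrary V, fun m _ _ => by simp⟩
  have hd' : ∀ x : V, (n : ℝ) * ((F.filter fun A => x ∈ A).card : ℝ) <
      (2 : ℝ) ^ ((n : ℝ) / 369 - 100) := by
    intro x
    have := hd x
    rwa [lt_div_iff₀ (by linarith), mul_comm] at this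
  obtain ⟨x0, hx0⟩ : A.Nonempty := card_pos.1 (by rw [hn A hA]; omega)
  have h1 : 1 ≤ (F.filter fun A => x0 ∈ A).card := card_pos.2 ⟨A, mem_filter.2 ⟨hA, hx0⟩⟩
  have hbig : 36900 ≤ n := by
    by_contra hlt
    have h2 : (n : ℝ) ≤ 36900 := by exact_mod_cast (by omega : n ≤ 36900)
    have h3 : (2 : ℝ) ^ ((n : ℝ) / 369 - 100) ≤ 1 :=
      Real.rpow_le_one_of_one_le_of_nonpos (by norm_num) (by linarith)
    have h4 : (1 : ℝ) ≤ (F.filter fun A => x0 ∈ A).card := by exact_mod_cast h1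
    have := hd' x0
    nlinarith
  obtain ⟨x1, -, hmax⟩ := exists_max_image (F.biUnion id)
    (fun x => (F.filter fun A => x ∈ A).card) ⟨x0, mem_biUnion.2 ⟨A, hA, hx0⟩⟩
  have hx0W : x0 ∈ F.biUnion id := mem_biUnion.2 ⟨A, hA, hx0⟩
  refine Pool.Agent.P.MP_d36d9e_co.X.second_player_exp F n (F.filter fun A => x1 ∈ A).card
    ((n - 1083) / 369) hn1 hn ?_ (le_trans h1 (hmax x0 hx0W)) ?_ (by omega) (by omega)
  · intro x
    by_cases hx : x ∈ F.biUnion id
    · exact hmax x hx
    · have e : (F.filter fun A => x ∈ A) = ∅ :=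
        filter_eq_empty_iff.2 fun B hB h => hx (mem_biUnion.2 ⟨B, hB, h⟩)
      rw [e]
      exact Nat.zero_le _
  · obtain ⟨k, hk⟩ : ∃ k, (n - 1083) / 369 = k + 3 := ⟨(n - 1083) / 369 - 3, by omega⟩
    have h2 : (n : ℝ) ≤ 369 * k + 3000 := by exact_mod_cast (by omega : n ≤ 369 * k + 3000)
    have h3 : (2 : ℝ) ^ ((n : ℝ) / 369 - 100) ≤ 2 ^ (k : ℝ) :=
      Real.rpow_le_rpow_of_exponent_le (by norm_num) (by linarith)
    have h4 := lt_of_lt_of_le (hd' x1) h3
    rw [Real.rpow_natCast] at h4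
    have h5 : n * (F.filter fun A => x1 ∈ A).card < 2 ^ k := by exact_mod_cast h4
    rw [hk, pow_add]
    omega

end Pool.Agent.Results.MP_d36d9e_co.StrongDrawExp
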